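import Pool.Agent.Helper96_BN.BCS

/-!
# Squad PP, part BN, module BC4: the scalars of the counting lemma agree

`Co4Stmt` of `Helper66_BN/Stmts.lean` with the additional hypothesis that `U` is an `ℓ`-group.
-/

open scoped BigOperators

set_option linter.unusedSectionVars false

noncomputable section

namespace Pool.Agent.PP.BN.H96

open Pool.Agent.PP

/-- `Co4Stmt` for `ℓ`-groups `U`. -/
def Co4pStmt : Prop := ∀ (ℓ : ℕ) [Fact ℓ.Prime] (F : Type) [Field F], GoodF ℓ F →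
  ∀ (D : Type) [Group D] [Finite D] (M U : Subgroup D) [M.Normal] (φ : M → F)
    (κ : M.subgroupOf (Subgroup.normalizer (U : Set D)) → F), U ≤ M → IsPGroup ℓ U →
  Cor M U φ κ → κ ∈ IBr F (M.subgroupOf (Subgroup.normalizer (U : Set D))) →
  ∀ x y : Subgroup.normalizer (U : Set D),
    x * y * x⁻¹ * y⁻¹ ∈ M.subgroupOf (Subgroup.normalizer (U : Set D)) →
    (∀ l, φ (MulAut.conjNormal (x : D) l) = φ l) → (∀ l, φ (MulAut.conjNormal (y : D) l) = φ l) →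
    (∀ l, κ (MulAut.conjNormal x l) = κ l) → (∀ l, κ (MulAut.conjNormal y l) = κ l) →
    tc M φ (x : D) (y : D) = tc (M.subgroupOf (Subgroup.normalizer (U : Set D))) κ x y

section

variable {ℓ : ℕ} {F : Type} [Field F] {D : Type} [Group D] {M U : Subgroup D}
  {κ : M.subgroupOf (Subgroup.normalizer (U : Set D)) → F} {k : ℕ}
  {ρ : M →* Matrix (Fin k) (Fin k) F} {v : Fin k → F}

theorem kap_mul (hv : v ≠ 0)
    (hb : ∀ b : M.subgroupOf (Subgroup.normalizer (U : Set D)),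
      (ρ ⟨((b : Subgroup.normalizer (U : Set D)) : D), b.2⟩).mulVec v = κ b • v)
    (b c : M.subgroupOf (Subgroup.normalizer (U : Set D))) : κ (b * c) = κ b * κ c := by
  have h1 := hb (b * c)
  have h2 : (ρ ⟨(((b * c : M.subgroupOf (Subgroup.normalizer (U : Set D))) :
      Subgroup.normalizer (U : Set D)) : D), (b * c).2⟩) =
      ρ ⟨((b : Subgroup.normalizer (U : Set D)) : D), b.2⟩ *
        ρ ⟨((c : Subgroup.normalizer (U : Set D)) : D), c.2⟩ := by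
    rw [← map_mul]
    rfl
  rw [h2, ← Matrix.mulVec_mulVec, hb c, Matrix.mulVec_smul, hb b, smul_smul] at h1
  have h3 := smul_left_injective F hv h1
  rw [mul_comm] at h3
  exact h3.symm

theorem kap_one (hv : v ≠ 0)
    (hb : ∀ b : M.subgroupOf (Subgroup.normalizer (U : Set D)),
      (ρ ⟨((b : Subgroup.normalizer (U : Set D)) : D), b.2⟩).mulVec v = κ b • v) :
    κ 1 = 1 := by
  have h1 : (ρ (⟨1, M.one_mem⟩ : M)).mulVec v = κ 1 • v := hb 1
  have h2 : ρ (⟨1, M.one_mem⟩ : M) = 1 := map_one ρ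
  rw [h2, Matrix.one_mulVec] at h1
  have h3 : (1 : F) • v = κ 1 • v := by rw [one_smul]; exact h1
  exact (smul_left_injective F hv h3).symm

/-- `κ` as a homomorphism -/
def kapH (hv : v ≠ 0)
    (hb : ∀ b : M.subgroupOf (Subgroup.normalizer (U : Set D)),
      (ρ ⟨((b : Subgroup.normalizer (U : Set D)) : D), b.2⟩).mulVec v = κ b • v) :
    M.subgroupOf (Subgroup.normalizer (U : Set D)) →* F where
  toFun := κ
  map_one' := kap_one hv hb
  map_mul' := kap_mul hv hb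

/-- `κ` is trivial on `U` -/
theorem kap_U (hF : GoodF ℓ F) (hUp : IsPGroup ℓ U) (hv : v ≠ 0)
    (hb : ∀ b : M.subgroupOf (Subgroup.normalizer (U : Set D)),
      (ρ ⟨((b : Subgroup.normalizer (U : Set D)) : D), b.2⟩).mulVec v = κ b • v)
    (b : M.subgroupOf (Subgroup.normalizer (U : Set D)))
    (hbU : ((b : Subgroup.normalizer (U : Set D)) : D) ∈ U) : κ b = 1 := by
  have hch := hF.char
  have : Fact ℓ.Prime := ⟨hF.prime⟩
  obtain ⟨j, hj⟩ := hUp ⟨_, hbU⟩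
  have h1 : b ^ ℓ ^ j = 1 := by
    apply Subtype.ext
    apply Subtype.ext
    have := congrArg Subtype.val hj
    simpa using this
  have h2 : (kapH hv hb) b ^ ℓ ^ j = 1 := by rw [← map_pow, h1, map_one]
  have h3 : (κ b - 1) ^ ℓ ^ j = 0 := by
    rw [sub_pow_char_pow, one_pow]
    have h4 : κ b ^ ℓ ^ j = 1 := h2
    rw [h4, sub_self]
  exact sub_eq_zero.1 (pow_eq_zero_iff (pow_ne_zero _ hF.prime.ne_zero) |>.1 h3)

/-- an implementer of an element of the normaliser maps the line to itself -/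
theorem imp_line (hF : GoodF ℓ F) [Finite D] [M.Normal] (hUM : U ≤ M) (hUp : IsPGroup ℓ U)
    (hv : v ≠ 0)
    (hb : ∀ b : M.subgroupOf (Subgroup.normalizer (U : Set D)),
      (ρ ⟨((b : Subgroup.normalizer (U : Set D)) : D), b.2⟩).mulVec v = κ b • v)
    (huniq : ∀ w : Fin k → F, (∀ u ∈ U.subgroupOf M, (ρ u).mulVec w = w) → ∃ c : F, w = c • v)
    (x : Subgroup.normalizer (U : Set D)) {X : Matrix (Fin k) (Fin k) F}
    (hX : Helper58_CL.Imp ρ (x : D) X) : ∃ s : F, s ≠ 0 ∧ X.mulVec v = s • v := by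
  obtain ⟨s, hs⟩ := huniq (X.mulVec v) (by
    intro u hu
    have huU : (u : D) ∈ U := hu
    have h1 : (x : D)⁻¹ * u * x ∈ U := by
      have h2 := Subgroup.mem_normalizer_iff''.1 x.2 (u : D)
      exact h2.1 huU
    have hx1 : (x : D)⁻¹ * u * x ∈ M := hUM h1
    have h3 := hX.eq ⟨_, hx1⟩
    have h4 : MulAut.conjNormal (x : D) (⟨(x : D)⁻¹ * u * x, hx1⟩ : M) = u := by
      apply Subtype.ext
      simp only [MulAut.conjNormal_apply]
      group
    rw [h4] at h3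
    have hx2 : (x : D)⁻¹ * u * x ∈ Subgroup.normalizer (U : Set D) := Subgroup.le_normalizer h1
    have h5 := hb (⟨⟨_, hx2⟩, hx1⟩ : M.subgroupOf (Subgroup.normalizer (U : Set D)))
    have h6 := kap_U hF hUp hv hb
      (⟨⟨_, hx2⟩, hx1⟩ : M.subgroupOf (Subgroup.normalizer (U : Set D))) h1
    rw [h6, one_smul] at h5
    have h7 : (ρ ⟨(x : D)⁻¹ * u * x, hx1⟩).mulVec v = v := h5
    rw [Matrix.mulVec_mulVec, ← h3, ← Matrix.mulVec_mulVec, h7])
  refine ⟨s, ?_, hs⟩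
  rintro rfl
  rw [zero_smul] at hs
  apply hv
  obtain ⟨W, hW⟩ := hX.unit
  have h8 : ((W⁻¹).val * X).mulVec v = 0 := by
    rw [← Matrix.mulVec_mulVec, hs, Matrix.mulVec_zero]
  rw [← hW, Units.inv_mul, Matrix.one_mulVec] at h8
  exact h8

/-- the scalar for a linear character -/
theorem isTC_lin {K : Type} [Group K] {L : Subgroup K} [L.Normal] (κ : L →* F) {x y : K}
    (hk : x * y * x⁻¹ * y⁻¹ ∈ L) (hx : ∀ l, κ (MulAut.conjNormal x l) = κ l)
    (hy : ∀ l, κ (MulAut.conjNormal y l) = κ l) :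
    IsTC L (κ : L → F) x y (κ ⟨x * y * x⁻¹ * y⁻¹, hk⟩)⁻¹ := by
  let ρ₁ : L →* Matrix (Fin 1) (Fin 1) F :=
    { toFun := fun b => Matrix.scalar (Fin 1) (κ b)
      map_one' := by rw [map_one, map_one]
      map_mul' := fun a b => by rw [map_mul, map_mul] }
  have hne : κ ⟨x * y * x⁻¹ * y⁻¹, hk⟩ ≠ 0 := by
    have := (Group.isUnit (⟨x * y * x⁻¹ * y⁻¹, hk⟩ : L)).map κ
    exact this.ne_zero
  refine ⟨1, ρ₁, 1, 1, hk, ⟨one_pos, ?_⟩, ?_, isUnit_one, isUnit_one, ?_, ?_, ?_⟩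
  · rw [eq_top_iff]
    intro A _
    have h1 : A = A 0 0 • ρ₁ 1 := by
      rw [map_one]
      ext i j
      rw [Subsingleton.elim i 0, Subsingleton.elim j 0]
      simp
    rw [h1]
    exact Submodule.smul_mem _ _ (Submodule.subset_span ⟨1, rfl⟩)
  · funext b
    show (Matrix.scalar (Fin 1) (κ b)).trace = κ b
    simp [Matrix.trace]
  · intro g
    show 1 * Matrix.scalar (Fin 1) (κ g) = Matrix.scalar (Fin 1) (κ (MulAut.conjNormal x g)) * 1
    rw [hx, one_mul, mul_one]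
  · intro g
    show 1 * Matrix.scalar (Fin 1) (κ g) = Matrix.scalar (Fin 1) (κ (MulAut.conjNormal y g)) * 1
    rw [hy, one_mul, mul_one]
  · show (1 : Matrix (Fin 1) (Fin 1) F) * 1 = (κ ⟨x * y * x⁻¹ * y⁻¹, hk⟩)⁻¹ •
      (Matrix.scalar (Fin 1) (κ ⟨x * y * x⁻¹ * y⁻¹, hk⟩) * 1 * 1)
    ext i j
    rw [Subsingleton.elim i 0, Subsingleton.elim j 0]
    simp [hne]

/-- BC4. -/
theorem co4 : Co4pStmt := by
  intro ℓ _ F _ hF D _ _ M U _ φ κ hUM hUp hcor hκ x y hk hx hy hκx hκy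
  obtain ⟨k, ρ, v, hρ, htr, hsz, hv, hb, huniq⟩ := hcor
  have hφ : φ ∈ IBr F M := ⟨k, ρ, hρ, htr.symm⟩
  have hk' : (x : D) * y * (x : D)⁻¹ * (y : D)⁻¹ ∈ M := hk
  obtain ⟨X, hX⟩ := Helper58_CL.exists_imp H20.ibc hF hρ (x := (x : D)) (by rw [htr]; exact hx)
  obtain ⟨Y, hY⟩ := Helper58_CL.exists_imp H20.ibc hF hρ (x := (y : D)) (by rw [htr]; exact hy)
  obtain ⟨c, hc, he⟩ := Helper58_CL.exists_scalar hρ hX hY hk'
  obtain ⟨s, hs, hXv⟩ := imp_line hF hUM hUp hv hb huniq x hX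
  obtain ⟨t, ht, hYv⟩ := imp_line hF hUM hUp hv hb huniq y hY
  have h1 := hb ⟨x * y * x⁻¹ * y⁻¹, hk⟩
  have h2 : (ρ ⟨(x : D) * y * (x : D)⁻¹ * (y : D)⁻¹, hk'⟩).mulVec v =
      κ ⟨x * y * x⁻¹ * y⁻¹, hk⟩ • v := h1
  have h3 : (X * Y).mulVec v = (s * t) • v := by
    rw [← Matrix.mulVec_mulVec, hYv, Matrix.mulVec_smul, hXv, smul_smul, mul_comm]
  have h4 : (X * Y).mulVec v = (c * (κ ⟨x * y * x⁻¹ * y⁻¹, hk⟩ * (t * s))) • v := by
    rw [he, Matrix.smul_mulVec, ← Matrix.mulVec_mulVec, hXv, Matrix.mulVec_smul,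
      ← Matrix.mulVec_mulVec, hYv, Matrix.mulVec_smul, h2, smul_smul, smul_smul, smul_smul]
    congr 1
    ring
  have h5 : s * t = c * (κ ⟨x * y * x⁻¹ * y⁻¹, hk⟩ * (t * s)) :=
    smul_left_injective F hv (h3.symm.trans h4)
  have h6 : c = (κ ⟨x * y * x⁻¹ * y⁻¹, hk⟩)⁻¹ := by
    have h7 : c * κ ⟨x * y * x⁻¹ * y⁻¹, hk⟩ = 1 := by
      have hst : s * t ≠ 0 := mul_ne_zero hs ht
      apply mul_right_cancel₀ hst
      rw [one_mul]
      calc c * κ ⟨x * y * x⁻¹ * y⁻¹, hk⟩ * (s * t)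
          = c * (κ ⟨x * y * x⁻¹ * y⁻¹, hk⟩ * (t * s)) := by ring
        _ = s * t := h5.symm
    exact eq_inv_of_mul_eq_one_left h7
  have h8 : IsTC M φ (x : D) (y : D) c :=
    ⟨k, ρ, X, Y, hk', hρ, htr, hX.unit, hY.unit, hX.eq, hY.eq, he⟩
  obtain ⟨-, -, h9⟩ := Helper58_CL.clu H20.ibc ℓ F hF D M φ hφ x y hk' hx hy
  obtain ⟨-, -, h10⟩ := Helper58_CL.clu H20.ibc ℓ F hF _
    (M.subgroupOf (Subgroup.normalizer (U : Set D))) κ hκ x y hk hκx hκy
  rw [← h9 _ h8, h6]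
  exact h10 _ (isTC_lin (kapH hv hb) hk hκx hκy)

end

end Pool.Agent.PP.BN.H96
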