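import Pool.Agent.Helper36_PP.StmtsCY
import Pool.Agent.Helper66_PP.PosX
import Pool.Agent.Helper58_CL.Coef
import Pool.Agent.Helper20_PP.Nls
import Pool.Agent.Helper74_PP.Brt

/-!
# Squad PP, part CY, module NPR: irreducible representations in a positive idempotent are not
projective
-/

open scoped BigOperators

set_option linter.unusedSectionVars false

noncomputable section

namespace Pool.Agent.PP.CY.H96

open Pool.Agent.PP

variable {ℓ : ℕ} {F : Type} [Field F] {G : Type} [Group G] [Finite G] {n : ℕ}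
  {σ : G →* Matrix (Fin n) (Fin n) F}

theorem ev_iter (a b : G → F) (k : ℕ) :
    ev σ ((mulF a)^[k] b) = ev σ a ^ k * ev σ b := by
  induction k with
  | zero => rw [Function.iterate_zero, id_eq, pow_zero, one_mul]
  | succ k ih =>
    rw [Function.iterate_succ_apply', Helper58_CL.ev_mulF, ih, pow_succ', mul_assoc]

/-- a class sum of defect zero acts as zero -/
theorem ev_clsum (hσ : IsIrr σ) {e : G → F} (he : ev σ e = 1) (hp : Pos ℓ e ⊤) {x : G}
    (hx : ¬ ℓ ∣ Nat.card (Subgroup.centralizer ({x} : Set G))) : ev σ (clsum F ⊤ x) = 0 := by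
  obtain ⟨k, hk⟩ := hp x (Subgroup.mem_top x) (by rwa [inf_top_eq])
  obtain ⟨w, hw, -⟩ := H20.eig F G n σ hσ (clsum F ⊤ x) (Pool.Agent.AWR.H39.clsum_cl x)
  have h1 := ev_iter (σ := σ) (clsum F ⊤ x) e k
  have h0 : ev σ (0 : G → F) = 0 := by
    unfold ev
    simp
  rw [hk, h0, he, mul_one, hw] at h1
  have hne : Nonempty (Fin n) := ⟨⟨0, hσ.1⟩⟩
  have h2 : Matrix.scalar (Fin n) (w ^ k) = 0 := by rw [map_pow]; exact h1.symm
  have h3 : w ^ k = 0 := by
    have h4 := congrFun (congrFun h2 ⟨0, hσ.1⟩) ⟨0, hσ.1⟩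
    simpa using h4
  have h5 : w = 0 := by
    by_contra hw0
    exact pow_ne_zero k hw0 h3
  rw [hw, h5, map_zero]

/-- a class function supported on elements of defect zero acts as zero -/
theorem ev_pc (hσ : IsIrr σ) {e : G → F} (he : ev σ e = 1) (hp : Pos ℓ e ⊤) {z : G → F}
    (hz : IsCl z) (hz' : ∀ x, ℓ ∣ Nat.card (Subgroup.centralizer ({x} : Set G)) → z x = 0) :
    ev σ z = 0 := by
  classical
  have hfC : Fintype (ConjClasses G) := Fintype.ofFinite _
  rw [H66.cl_eq_sum hz, Helper58_CL.ev_sum]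
  refine Finset.sum_eq_zero fun c _ => ?_
  rw [Helper58_CL.ev_smul]
  by_cases h : ℓ ∣ Nat.card (Subgroup.centralizer ({(c.out : G)} : Set G))
  · rw [hz' _ h, zero_smul]
  · rw [ev_clsum hσ he hp h, smul_zero]

/-- the sum of the conjugates vanishes at elements whose centraliser has order divisible by `ℓ` -/
theorem sum_conj_zero (hF : GoodF ℓ F) (a : G → F) {x : G}
    (hx : ℓ ∣ Nat.card (Subgroup.centralizer ({x} : Set G))) :
    ∑ᶠ g : G, a (g⁻¹ * x * g) = 0 := by
  have : Fact ℓ.Prime := ⟨hF.prime⟩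
  obtain ⟨c, hc⟩ := exists_prime_orderOf_dvd_card' ℓ hx
  set R : Subgroup G := Subgroup.zpowers (c : G) with hR
  have hRo : Nat.card R = ℓ := by
    rw [hR, Nat.card_zpowers, Subgroup.orderOf_coe, hc]
  have hRp : IsPGroup ℓ R := IsPGroup.of_card (n := 1) (by rw [hRo, pow_one])
  have hRc : ∀ r ∈ R, r * x = x * r := by
    intro r hr
    have h1 : R ≤ Subgroup.centralizer ({x} : Set G) := by
      rw [hR, Subgroup.zpowers_le]
      exact c.2
    have h2 := Subgroup.mem_centralizer_singleton_iff.1 (h1 hr)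
    exact h2.symm ▸ rfl
  have h1 := H74.orb ℓ F F R G hF.prime hF.char hRp (fun g : G => a (g⁻¹ * x * g)) (by
    intro r t
    have h2 := hRc r r.2
    have h3 : (r • t : G) = (r : G) * t := rfl
    rw [h3]
    congr 1
    have h4 : (r : G)⁻¹ * x * r = x := by rw [mul_assoc, ← h2, inv_mul_cancel_left]
    calc ((r : G) * t)⁻¹ * x * (r * t) = t⁻¹ * ((r : G)⁻¹ * x * r) * t := by group
      _ = _ := by rw [h4])
  rw [h1]
  refine finsum_mem_eq_zero_of_forall_eq_zero fun t ht => ?_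
  exfalso
  have h5 : (⟨(c : G), Subgroup.mem_zpowers _⟩ : R) • t = t := ht _
  have h6 : (c : G) * t = t := h5
  have h7 : (c : G) = 1 := by rwa [mul_eq_right] at h6
  have h8 : orderOf c = 1 := by
    rw [orderOf_eq_one_iff]
    exact Subtype.ext h7
  rw [hc] at h8
  exact hF.prime.one_lt.ne' h8

/-- the value of a sum of conjugates -/
theorem ev_conj (a : G → F) :
    ev σ (fun x => ∑ᶠ g : G, a (g⁻¹ * x * g)) = ∑ᶠ g : G, σ g * ev σ a * σ g⁻¹ := by
  classical
  have hfG := Fintype.ofFinite G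
  simp only [ev, finsum_eq_sum_of_fintype, Finset.sum_smul]
  rw [Finset.sum_comm]
  refine Finset.sum_congr rfl fun g _ => ?_
  rw [Finset.mul_sum, Finset.sum_mul, ← Equiv.sum_comp (MulAut.conj g).toEquiv]
  refine Finset.sum_congr rfl fun y _ => ?_
  have h1 : (MulAut.conj g).toEquiv y = g * y * g⁻¹ := rfl
  have h2 : g⁻¹ * (g * y * g⁻¹) * g = y := by group
  rw [h1, h2, map_mul, map_mul, Matrix.mul_smul, Matrix.smul_mul]

/-- the cosets of `P` -/
def cosetEquiv (P : Subgroup G) : (G ⧸ P) × P ≃ G where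
  toFun x := x.1.out * x.2
  invFun g := ((g : G ⧸ P), ⟨((g : G ⧸ P)).out⁻¹ * g, by
    rw [← QuotientGroup.eq]
    exact Quotient.out_eq' _⟩)
  left_inv := by
    rintro ⟨q, p⟩
    have h1 : ((q.out * p : G) : G ⧸ P) = q := by
      rw [QuotientGroup.mk_mul_of_mem _ p.2]
      exact Quotient.out_eq' q
    ext
    · exact h1
    · show (((q.out * p : G) : G ⧸ P)).out⁻¹ * (q.out * p) = p
      rw [h1, inv_mul_cancel_left]
  right_inv := by
    intro g
    show ((g : G ⧸ P)).out * (((g : G ⧸ P)).out⁻¹ * g) = g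
    rw [mul_inv_cancel_left]

/-- the trace from `1` to `G` of a matrix whose trace from `1` to `P` is the identity -/
theorem tr_index (P : Subgroup G) {B : Matrix (Fin n) (Fin n) F}
    (hB : ∑ᶠ p : P, σ p * B * σ (p : G)⁻¹ = 1) :
    ∑ᶠ g : G, σ g * B * σ g⁻¹ = (P.index : F) • (1 : Matrix (Fin n) (Fin n) F) := by
  classical
  have hfG := Fintype.ofFinite G
  have hfP := Fintype.ofFinite P
  have hfQ := Fintype.ofFinite (G ⧸ P)
  rw [finsum_eq_sum_of_fintype] at hB ⊢
  rw [← Equiv.sum_comp (cosetEquiv P), Fintype.sum_prod_type]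
  have h1 : ∀ q : G ⧸ P, ∑ p : P, σ (cosetEquiv P (q, p)) * B * σ (cosetEquiv P (q, p))⁻¹ = 1 := by
    intro q
    have h2 : ∀ p : P, cosetEquiv P (q, p) = q.out * p := fun p => rfl
    calc ∑ p : P, σ (cosetEquiv P (q, p)) * B * σ (cosetEquiv P (q, p))⁻¹
        = ∑ p : P, σ q.out * (σ p * B * σ (p : G)⁻¹) * σ (q.out : G)⁻¹ := by
          refine Finset.sum_congr rfl fun p _ => ?_
          rw [h2 p, mul_inv_rev, map_mul, map_mul]
          simp only [mul_assoc]
      _ = σ q.out * 1 * σ (q.out : G)⁻¹ := by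
          rw [← Finset.sum_mul, ← Finset.mul_sum, hB]
      _ = 1 := by rw [mul_one, ← map_mul, mul_inv_cancel, map_one]
  rw [Finset.sum_congr rfl fun q _ => h1 q, Finset.sum_const, Finset.card_univ,
    ← Nat.card_eq_fintype_card, ← Subgroup.index, Nat.cast_smul_eq_nsmul]

/-- NPR. -/
theorem npr : NprStmt := by
  intro ℓ _ F _ hF G _ _ P hP hi e he hpos n σ hσ hse φ hφ
  have hch := hF.char
  -- the matrix of `φ`
  set B : Matrix (Fin n) (Fin n) F := LinearMap.toMatrix' φ with hBdef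
  have hB : ∑ᶠ p : P, σ p * B * σ (p : G)⁻¹ = 1 := by
    have hfP := Fintype.ofFinite P
    rw [finsum_eq_sum_of_fintype]
    have h1 : ∑ p : P, mrep σ p ∘ₗ φ ∘ₗ mrep σ (p : G)⁻¹ = LinearMap.id := by
      rw [← finsum_eq_sum_of_fintype]
      exact hφ
    have h2 := congrArg LinearMap.toMatrix' h1
    rw [map_sum, LinearMap.toMatrix'_id] at h2
    rw [← h2]
    refine Finset.sum_congr rfl fun p _ => ?_
    rw [LinearMap.toMatrix'_comp, LinearMap.toMatrix'_comp]
    have h3 : ∀ g : G, LinearMap.toMatrix' (mrep σ g) = σ g := by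
      intro g
      show LinearMap.toMatrix' (Matrix.toLin' (σ g)) = σ g
      rw [LinearMap.toMatrix'_toLin']
    rw [h3, h3, mul_assoc]
  obtain ⟨a, ha⟩ := H20.ibj ℓ F hF G Unit (fun _ => n) (fun _ => σ) (fun _ => hσ)
    (fun _ _ _ => rfl) (fun _ => B)
  have ha' : ev σ a = B := ha ()
  have h1 := ev_conj (σ := σ) a
  rw [ha', tr_index P hB] at h1
  have h2 := ev_pc (z := fun x => ∑ᶠ g : G, a (g⁻¹ * x * g)) hσ hse hpos (by
    intro x y
    have hfG := Fintype.ofFinite G
    simp only [finsum_eq_sum_of_fintype]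
    rw [← Equiv.sum_comp (Equiv.mulLeft y)]
    refine Finset.sum_congr rfl fun g _ => ?_
    congr 1
    rw [Equiv.coe_mulLeft]
    group) (fun x hx => sum_conj_zero hF a hx)
  rw [h2] at h1
  have h3 := congrFun (congrFun h1 ⟨0, hσ.1⟩) ⟨0, hσ.1⟩
  rw [Matrix.smul_apply, Matrix.one_apply_eq, smul_eq_mul, mul_one, Matrix.zero_apply] at h3
  exact hi ((CharP.cast_eq_zero_iff F ℓ _).1 h3.symm)

end Pool.Agent.PP.CY.H96
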