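import Pool.Agent.Helper96_BN.BCS
import Pool.Agent.Helper59_PP.Core

/-!
# Squad PP, part BN, module BCQ: comparison of two counts with the same outer group
-/

open scoped BigOperators

set_option linter.unusedSectionVars false

noncomputable section

namespace Pool.Agent.PP.BN.H96

open Pool.Agent.PP

open Classical in
/-- the counting lemma as a sum over the quotient -/
theorem cl_quot (hcl : ClStmt) {ℓ : ℕ} {F : Type} [Field F] (hF : GoodF ℓ F) {τ : F → ℂ}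
    (hτ : IsLift τ) {H : Type} [Group H] [Finite H] (L : Subgroup H) [L.Normal] {a : H → F}
    (ha : IsCl a) (ha0 : ∀ h, h ∉ L → a h = 0) {Q : Type} [Group Q] [Finite Q] (q : H →* Q)
    (hker : ∀ x, q x = 1 ↔ x ∈ L) (s : Q → H) (hs : ∀ X, q (s X) = X) :
    (Nat.card Q : ℂ) * ({θ : H → F | θ ∈ IBr F H ∧ actF a θ = θ}.ncard : ℂ) =
      ∑ᶠ (X : Q) (Y : Q), if Reg ℓ X ∧ X * Y * X⁻¹ * Y⁻¹ = 1 then csum τ L a (s X) (s Y) else 0 := by
  have hq : Function.Surjective q := fun X => ⟨s X, hs X⟩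
  have hkerL : q.ker = L := by
    ext x
    rw [MonoidHom.mem_ker, hker]
  have h1 := hcl ℓ F hF τ hτ H L a ha ha0
  have hreg : ∀ x : H, Reg ℓ (x : H ⧸ L) ↔ Reg ℓ (q x) := by
    intro x
    unfold Reg
    have h2 : orderOf (x : H ⧸ L) = orderOf (q x) := by
      rw [orderOf_eq_orderOf_iff]
      intro k
      rw [← QuotientGroup.mk_pow, QuotientGroup.eq_one_iff, ← map_pow, hker]
    rw [h2]
  have hcomm : ∀ x y : H, x * y * x⁻¹ * y⁻¹ ∈ L ↔ q x * q y * (q x)⁻¹ * (q y)⁻¹ = 1 := by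
    intro x y
    rw [← hker, map_mul, map_mul, map_mul, map_inv, map_inv]
  have hterm : ∀ x y : H, (∑ᶠ _ : Reg ℓ (x : H ⧸ L) ∧ x * y * x⁻¹ * y⁻¹ ∈ L, csum τ L a x y) =
      if Reg ℓ (q x) ∧ q x * q y * (q x)⁻¹ * (q y)⁻¹ = 1 then
        csum τ L a (s (q x)) (s (q y)) else 0 := by
    intro x y
    rw [finsum_eq_if]
    by_cases hc : Reg ℓ (x : H ⧸ L) ∧ x * y * x⁻¹ * y⁻¹ ∈ L
    · rw [if_pos hc, if_pos ⟨(hreg x).1 hc.1, (hcomm x y).1 hc.2⟩]
      have hl : ∀ z : H, (s (q z))⁻¹ * z ∈ L := by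
        intro z
        rw [← hker, map_mul, map_inv, hs, inv_mul_cancel]
      have h3 : s (q x) * s (q y) * (s (q x))⁻¹ * (s (q y))⁻¹ ∈ L := by
        rw [hcomm, hs, hs]
        exact (hcomm x y).1 hc.2
      have h4 := cos ℓ F hF τ H L a (s (q x)) (s (q y)) h3 _ (hl x) _ (hl y)
      rw [mul_inv_cancel_left, mul_inv_cancel_left] at h4
      exact h4
    · rw [if_neg hc, if_neg]
      rintro ⟨c1, c2⟩
      exact hc ⟨(hreg x).2 c1, (hcomm x y).2 c2⟩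
  have h5 : (∑ᶠ (x : H) (y : H) (_ : Reg ℓ (x : H ⧸ L) ∧ x * y * x⁻¹ * y⁻¹ ∈ L), csum τ L a x y) =
      (Nat.card L : ℂ) * ((Nat.card L : ℂ) * ∑ᶠ (X : Q) (Y : Q),
        if Reg ℓ X ∧ X * Y * X⁻¹ * Y⁻¹ = 1 then csum τ L a (s X) (s Y) else 0) := by
    have h6 : ∀ x : H, (∑ᶠ (y : H) (_ : Reg ℓ (x : H ⧸ L) ∧ x * y * x⁻¹ * y⁻¹ ∈ L),
        csum τ L a x y) = (Nat.card L : ℂ) * ∑ᶠ Y : Q,
          if Reg ℓ (q x) ∧ q x * Y * (q x)⁻¹ * Y⁻¹ = 1 then csum τ L a (s (q x)) (s Y) else 0 := by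
      intro x
      rw [finsum_congr fun y => hterm x y]
      have h7 := H59.sum_fib q hq (fun Y : Q => if Reg ℓ (q x) ∧ q x * Y * (q x)⁻¹ * Y⁻¹ = 1 then
        csum τ L a (s (q x)) (s Y) else 0)
      rw [hkerL] at h7
      exact h7
    rw [finsum_congr h6]
    have h8 := H59.sum_fib q hq (fun X : Q => (Nat.card L : ℂ) * ∑ᶠ Y : Q,
      if Reg ℓ X ∧ X * Y * X⁻¹ * Y⁻¹ = 1 then csum τ L a (s X) (s Y) else 0)
    rw [hkerL] at h8
    rw [h8]
    congr 1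
    have := Fintype.ofFinite Q
    simp only [finsum_eq_sum_of_fintype, Finset.mul_sum]
  have h9 := H59.card_dom q hq
  rw [hkerL] at h9
  have hL : (Nat.card L : ℂ) ≠ 0 := Nat.cast_ne_zero.2 Nat.card_pos.ne'
  rw [h5, h9, Nat.cast_mul] at h1
  apply mul_left_cancel₀ hL
  apply mul_left_cancel₀ hL
  rw [← h1]
  ring

/-- BCQ. -/
theorem cmq (hcl : ClStmt) : CmqStmt := by
  intro ℓ _ F _ hF D _ _ M N _ hMN a b ha ha0 hb hb0 hc
  classical
  obtain ⟨τ, hτ⟩ := H59.exists_lift ℓ F hF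
  let q : N →* D ⧸ M := (QuotientGroup.mk' M).comp N.subtype
  have hq : Function.Surjective q := by
    intro X
    obtain ⟨x, rfl⟩ := QuotientGroup.mk'_surjective M X
    have hx : x ∈ N ⊔ M := by
      rw [sup_comm, hMN]
      trivial
    rw [← SetLike.mem_coe, Subgroup.mul_normal] at hx
    obtain ⟨y, hy, m, hm, rfl⟩ := hx
    refine ⟨⟨y, hy⟩, ?_⟩
    show QuotientGroup.mk' M y = QuotientGroup.mk' M (y * m)
    rw [map_mul]
    have : QuotientGroup.mk' M m = 1 := (QuotientGroup.eq_one_iff _).2 hm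
    rw [this, mul_one]
  choose s hs using hq
  have h1 := cl_quot hcl hF hτ M ha ha0 (QuotientGroup.mk' M)
    (fun x => QuotientGroup.eq_one_iff x) (fun X => (s X : D)) hs
  have h2 := cl_quot hcl hF hτ (M.subgroupOf N) hb hb0 q
    (fun x => QuotientGroup.eq_one_iff (x : D)) s hs
  have h3 : ∀ X Y : D ⧸ M, X * Y * X⁻¹ * Y⁻¹ = 1 →
      csum τ M a (s X) (s Y) = csum τ (M.subgroupOf N) b (s X) (s Y) := by
    intro X Y h
    apply hc τ hτ
    have h4 : q (s X * s Y * (s X)⁻¹ * (s Y)⁻¹) = 1 := by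
      rw [map_mul, map_mul, map_mul, map_inv, map_inv, hs, hs]
      exact h
    exact (QuotientGroup.eq_one_iff (N := M) ((s X * s Y * (s X)⁻¹ * (s Y)⁻¹ : N) : D)).1 h4
  have h4 : (Nat.card (D ⧸ M) : ℂ) * ({θ : D → F | θ ∈ IBr F D ∧ actF a θ = θ}.ncard : ℂ) =
      (Nat.card (D ⧸ M) : ℂ) * ({θ : N → F | θ ∈ IBr F N ∧ actF b θ = θ}.ncard : ℂ) := by
    rw [h1, h2]
    refine finsum_congr fun X => finsum_congr fun Y => ?_
    by_cases h : Reg ℓ X ∧ X * Y * X⁻¹ * Y⁻¹ = 1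
    · rw [if_pos h, if_pos h, h3 X Y h.2]
    · rw [if_neg h, if_neg h]
  have h5 : (Nat.card (D ⧸ M) : ℂ) ≠ 0 := Nat.cast_ne_zero.2 Nat.card_pos.ne'
  exact_mod_cast mul_left_cancel₀ h5 h4

end Pool.Agent.PP.BN.H96
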