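import Pool.Agent.Helper66_BN.Stmts
import Pool.Agent.Helper65_BN.Bhw
import Pool.Agent.Helper75_BN.Cyc
import Pool.Agent.Helper63_PP.Exk

/-!
# Squad PP, part BN, module BEX: every weight occurs
-/

open scoped BigOperators

set_option linter.unusedSectionVars false

noncomputable section

namespace Pool.Agent.PP.BN.H96

open Pool.Agent.PP

section abs

variable {F : Type} [Field F] [IsAlgClosed F]

/-- an irreducible subrepresentation -/
theorem sub_irr {Q U : Type} [Group Q] [Finite Q] [AddCommGroup U] [Module F U]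
    [FiniteDimensional F U] [Nontrivial U] (τ : Representation F Q U) :
    ∃ (m : ℕ) (κ : Q →* Matrix (Fin m) (Fin m) F) (ι : (Fin m → F) →ₗ[F] U), IsIrr κ ∧
      (∀ q w, ι ((κ q).mulVec w) = τ q (ι w)) ∧ Function.Injective ι := by
  classical
  let R := MonoidAlgebra F Q
  let M := τ.asModule
  let e : M ≃ₗ[F] U := τ.asModuleEquiv
  have : FiniteDimensional F M := inferInstanceAs (FiniteDimensional F U)
  have hMn : Nontrivial M := inferInstanceAs (Nontrivial U)
  have hart : IsArtinian R M := isArtinian_of_tower F inferInstance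
  have htop : (⊤ : Submodule R M) ≠ ⊥ := top_ne_bot
  obtain ⟨T, hT, -⟩ := (eq_bot_or_exists_atom_le (⊤ : Submodule R M)).resolve_left htop
  have hTs : IsSimpleModule R T := isSimpleModule_iff_isAtom.2 hT
  have : FiniteDimensional F T := FiniteDimensional.of_injective
    (T.subtype.restrictScalars F) (Subtype.val_injective)
  have : Nontrivial T := IsSimpleModule.nontrivial R T
  let b := Module.finBasis F T
  let Ψ : R →ₐ[F] Matrix (Fin (Module.finrank F T)) (Fin (Module.finrank F T)) F :=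
    (LinearMap.toMatrixAlgEquiv b).toAlgHom.comp (Algebra.lsmul F F T)
  let κ : Q →* Matrix (Fin (Module.finrank F T)) (Fin (Module.finrank F T)) F :=
    (Ψ : R →* _).comp (MonoidAlgebra.of F Q)
  have hΨ : Function.Surjective Ψ := by
    intro X
    obtain ⟨r, hr⟩ := H63.burnside (R := R) ((LinearMap.toMatrixAlgEquiv b).symm X)
    refine ⟨r, ?_⟩
    have h1 : Algebra.lsmul F F T r = (LinearMap.toMatrixAlgEquiv b).symm X := by
      apply LinearMap.ext
      intro t
      exact (hr t).symm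
    change LinearMap.toMatrixAlgEquiv b (Algebra.lsmul F F T r) = X
    rw [h1]
    exact (LinearMap.toMatrixAlgEquiv b).apply_symm_apply X
  have hspan : Submodule.span F (Set.range κ) = ⊤ := by
    rw [eq_top_iff]
    rintro X -
    obtain ⟨r, rfl⟩ := hΨ X
    induction r using MonoidAlgebra.induction_on with
    | of g => exact Submodule.subset_span ⟨g, rfl⟩
    | add f g hf hg => rw [map_add]; exact Submodule.add_mem _ hf hg
    | smul c f hf => rw [map_smul]; exact Submodule.smul_mem _ _ hf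
  let ι : (Fin (Module.finrank F T) → F) →ₗ[F] U :=
    e.toLinearMap ∘ₗ (T.subtype.restrictScalars F) ∘ₗ b.equivFun.symm.toLinearMap
  refine ⟨Module.finrank F T, κ, ι, ⟨Module.finrank_pos, hspan⟩, ?_, ?_⟩
  · intro q w
    set t : T := b.equivFun.symm w with ht
    have h1 : (κ q).mulVec w = b.equivFun ((MonoidAlgebra.of F Q q : R) • t) := by
      change (LinearMap.toMatrixAlgEquiv b (Algebra.lsmul F F T (MonoidAlgebra.of F Q q))).mulVec w
        = _
      have h2 : w = b.equivFun t := by rw [ht, LinearEquiv.apply_symm_apply]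
      rw [h2]
      exact LinearMap.toMatrix_mulVec_repr b b _ t
    have h3 : ι ((κ q).mulVec w) = e (((MonoidAlgebra.of F Q q : R) • t : T) : M) := by
      rw [h1]
      change e ((b.equivFun.symm (b.equivFun _) : T) : M) = _
      rw [LinearEquiv.symm_apply_apply]
    rw [h3]
    change e ((MonoidAlgebra.of F Q q : R) • (t : M)) = τ q (e (t : M))
    change τ.asModuleEquiv ((MonoidAlgebra.of F Q q : R) • (t : M)) = _
    rw [Representation.asModuleEquiv_map_smul, Representation.asAlgebraHom_of]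
  · exact e.injective.comp (Subtype.val_injective.comp b.equivFun.symm.injective)

end abs

section fn

variable {ℓ : ℕ} {F : Type} [Field F] {G : Type} [Group G] {U T : Subgroup G} {n : G}

/-- an element of `U` and `T` is trivial -/
theorem inf_one (h : Rk1 ℓ U T n) (hℓ : ℓ.Prime) [Finite G] {x : G} (hU : x ∈ U) (hT : x ∈ T) :
    x = 1 := by
  obtain ⟨k, hk⟩ := h.pU ⟨x, hU⟩
  have h1 : orderOf x ∣ ℓ ^ k := by
    rw [orderOf_dvd_iff_pow_eq_one]
    have := congrArg Subtype.val hk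
    simpa using this
  have h2 : orderOf x ∣ Nat.card T := by
    have := orderOf_dvd_natCard (⟨x, hT⟩ : T)
    rwa [Subgroup.orderOf_mk] at this
  have h3 : Nat.Coprime (ℓ ^ k) (Nat.card T) :=
    Nat.Coprime.pow_left k ((Nat.Prime.coprime_iff_not_dvd hℓ).2 h.cop)
  exact orderOf_eq_one_iff.1 (Nat.eq_one_of_dvd_coprimes h3 h1 h2)

/-- the `T`-component of an element of `U T` is unique -/
theorem comp_unique (h : Rk1 ℓ U T n) (hℓ : ℓ.Prime) [Finite G] {u u' t t' : G} (hu : u ∈ U)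
    (hu' : u' ∈ U) (ht : t ∈ T) (ht' : t' ∈ T) (he : u * t = u' * t') : t = t' := by
  have h1 : u'⁻¹ * u = t' * t⁻¹ := by
    rw [eq_mul_inv_iff_mul_eq, mul_assoc, he, inv_mul_cancel_left]
  have h2 : t' * t⁻¹ = 1 := inf_one h hℓ (h1 ▸ U.mul_mem (U.inv_mem hu') hu)
    (T.mul_mem ht' (T.inv_mem ht))
  exact (mul_inv_eq_one.1 h2).symm

open Classical in
/-- the function which is `μ` on `U T` and zero elsewhere -/
def muB (U T : Subgroup G) (μ : T →* F) (x : G) : F :=
  if h : ∃ t : T, ∃ u ∈ U, x = u * t then μ h.choose else 0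

theorem muB_mul (h : Rk1 ℓ U T n) (hℓ : ℓ.Prime) [Finite G] (μ : T →* F) {u : G} (hu : u ∈ U)
    (t : T) : muB U T μ (u * t) = μ t := by
  have hex : ∃ t' : T, ∃ u' ∈ U, u * (t : G) = u' * t' := ⟨t, u, hu, rfl⟩
  unfold muB
  rw [dif_pos hex]
  obtain ⟨u', hu', he⟩ := hex.choose_spec
  congr 1
  exact Subtype.ext (comp_unique h hℓ hu hu' t.2 hex.choose.2 he).symm

theorem muB_off {μ : T →* F} {x : G} (hx : ¬ ∃ t : T, ∃ u ∈ U, x = u * t) :
    muB U T μ x = 0 := by
  unfold muB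
  rw [dif_neg hx]

theorem memB_mul_U (h : Rk1 ℓ U T n) {x u : G} (hu : u ∈ U) :
    (∃ t : T, ∃ v ∈ U, x = v * t) → ∃ t : T, ∃ v ∈ U, x * u = v * t := by
  rintro ⟨t, v, hv, rfl⟩
  refine ⟨t, v * (t * u * (t : G)⁻¹), U.mul_mem hv (h.TU t t.2 u hu), ?_⟩
  group

theorem muB_mul_U (h : Rk1 ℓ U T n) (hℓ : ℓ.Prime) [Finite G] (μ : T →* F) (x : G) {u : G}
    (hu : u ∈ U) : muB U T μ (x * u) = muB U T μ x := by
  by_cases hx : ∃ t : T, ∃ v ∈ U, x = v * t
  · obtain ⟨t, v, hv, rfl⟩ := hx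
    have h1 : v * t * u = (v * (t * u * (t : G)⁻¹)) * t := by group
    rw [h1, muB_mul h hℓ μ (U.mul_mem hv (h.TU t t.2 u hu)), muB_mul h hℓ μ hv]
  · rw [muB_off hx, muB_off]
    intro h1
    apply hx
    have h2 := memB_mul_U h (U.inv_mem hu) h1
    rwa [mul_inv_cancel_right] at h2

theorem muB_mul_T (h : Rk1 ℓ U T n) (hℓ : ℓ.Prime) [Finite G] (μ : T →* F) (x : G) (t : T) :
    muB U T μ (x * t) = μ t * muB U T μ x := by
  by_cases hx : ∃ t : T, ∃ v ∈ U, x = v * t
  · obtain ⟨s, v, hv, rfl⟩ := hx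
    have h1 : v * s * t = v * ((s * t : T) : G) := by rw [Subgroup.coe_mul, mul_assoc]
    rw [h1, muB_mul h hℓ μ hv, muB_mul h hℓ μ hv, map_mul, mul_comm]
  · rw [muB_off hx, muB_off, mul_zero]
    rintro ⟨s, v, hv, he⟩
    apply hx
    refine ⟨s * t⁻¹, v, hv, ?_⟩
    rw [Subgroup.coe_mul, Subgroup.coe_inv, ← mul_assoc, ← he, mul_inv_cancel_right]

/-- `n⁻¹ v n ∈ U T` only for `v = 1` -/
theorem opp' (h : Rk1 ℓ U T n) {v : G} (hv : v ∈ U)
    (hB : ∃ t : T, ∃ u ∈ U, n⁻¹ * v * n = u * t) : v = 1 := by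
  obtain ⟨t, u, hu, he⟩ := hB
  have hnn := h.nn
  have h1 : (n * n)⁻¹ * v * (n * n) ∈ U := by
    have := h.TU (n * n)⁻¹ (T.inv_mem hnn) v hv
    rwa [inv_inv] at this
  have h2 : n * ((n * n)⁻¹ * v * (n * n)) * n⁻¹ = n⁻¹ * v * n := by group
  have h3 := h.opp _ h1 u hu t t.2 (h2.trans he)
  have h4 : v = (n * n) * ((n * n)⁻¹ * v * (n * n)) * (n * n)⁻¹ := by group
  rw [h4, h3]
  group

/-- `n ∉ U T` -/
theorem n_off (h : Rk1 ℓ U T n) : ¬ ∃ t : T, ∃ u ∈ U, n = u * t := by
  rintro ⟨t, u, hu, he⟩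
  obtain ⟨⟨v, hv⟩, hv1⟩ := Subgroup.ne_bot_iff_exists_ne_one.1 h.ne
  apply hv1
  apply Subtype.ext
  apply h.opp v hv (n * v * n⁻¹) ?_ 1 T.one_mem (mul_one _).symm
  rw [he, mul_inv_rev]
  have h1 : u * t * v * ((t : G)⁻¹ * u⁻¹) = u * (t * v * (t : G)⁻¹) * u⁻¹ := by group
  rw [h1]
  exact U.mul_mem (U.mul_mem hu (h.TU t t.2 v hv)) (U.inv_mem hu)

/-- the equivariance of the elements of the induced module -/
def Ind (U T : Subgroup G) (μ : T →* F) (f : G → F) : Prop :=
  (∀ x, ∀ u ∈ U, f (x * u) = f x) ∧ ∀ (x : G) (t : T), f (x * t) = μ t * f x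

variable [Finite G] [Fintype U]

/-- the conditions -/
def cnd (U : Subgroup G) [Fintype U] (n : G) (f : G → F) (x : G) : F := ∑ u : U, f (x * u * n)

/-- `n⁻¹ t n` -/
def tn' (h : Rk1 ℓ U T n) (t : T) : T := ⟨n⁻¹ * t * n, by
  rw [h.nT]
  have h1 : n * (n⁻¹ * (t : G) * n) * n⁻¹ = t := by group
  rw [h1]
  exact t.2⟩

theorem cnd_mul_U {f : G → F} (x : G) {u : G} (hu : u ∈ U) :
    cnd U n f (x * u) = cnd U n f x := by
  unfold cnd
  rw [← Equiv.sum_comp (Equiv.mulLeft (⟨u, hu⟩ : U)) (fun w : U => f (x * w * n))]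
  refine Finset.sum_congr rfl fun w _ => ?_
  rw [Equiv.coe_mulLeft, Subgroup.coe_mul, ← mul_assoc x]

theorem cnd_mul_T (h : Rk1 ℓ U T n) {μ : T →* F} {f : G → F} (hf : Ind U T μ f) (x : G) (t : T) :
    cnd U n f (x * t) = μ (tn' h t) * cnd U n f x := by
  unfold cnd
  have hmem : ∀ w : U, (t : G) * w * (t : G)⁻¹ ∈ U := fun w => h.TU t t.2 w w.2
  have hmem' : ∀ w : U, (t : G)⁻¹ * w * (t : G) ∈ U := fun w => by
    have := h.TU (t : G)⁻¹ (T.inv_mem t.2) w w.2
    rwa [inv_inv] at this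
  let c : U ≃ U :=
    { toFun := fun w => ⟨_, hmem w⟩
      invFun := fun w => ⟨_, hmem' w⟩
      left_inv := fun w => by
        apply Subtype.ext
        show (t : G)⁻¹ * ((t : G) * w * (t : G)⁻¹) * t = w
        group
      right_inv := fun w => by
        apply Subtype.ext
        show (t : G) * ((t : G)⁻¹ * w * (t : G)) * (t : G)⁻¹ = w
        group }
  rw [Finset.mul_sum, ← Equiv.sum_comp c (fun w : U => μ (tn' h t) * f (x * w * n))]
  refine Finset.sum_congr rfl fun w _ => ?_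
  rw [← hf.2]
  congr 1
  show x * (t : G) * w * n = x * ((t : G) * w * (t : G)⁻¹) * n * (n⁻¹ * (t : G) * n)
  group

theorem cnd_all (h : Rk1 ℓ U T n) {μ : T →* F} {f : G → F} (hf : Ind U T μ f)
    (h1 : cnd U n f 1 = 0) (h2 : ∀ w : U, cnd U n f (w * n) = 0) (x : G) : cnd U n f x = 0 := by
  rcases h.cell x with ⟨u, hu, t, ht, rfl⟩ | ⟨u, hu, t, ht, u', hu', rfl⟩
  · rw [cnd_mul_T h hf u ⟨t, ht⟩]
    have h3 := cnd_mul_U (n := n) (f := f) 1 hu
    rw [one_mul] at h3
    rw [h3, h1, mul_zero]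
  · rw [cnd_mul_U _ hu', cnd_mul_T h hf (u * n) ⟨t, ht⟩]
    have h3 := h2 ⟨u, hu⟩
    change cnd U n f (u * n) = 0 at h3
    rw [h3, mul_zero]

/-- the relation between the conditions -/
theorem cnd_rel (h : Rk1 ℓ U T n) (hcard : ((Nat.card U : ℕ) : F) = 0) (μ : T →* F) (u : U) :
    ∃ c : F, ∀ f : G → F, Ind U T μ f → ∑ w : U, f (w * n * u * n) = c * cnd U n f 1 := by
  by_cases hu : (u : G) = 1
  · refine ⟨0, fun f hf => ?_⟩
    rw [zero_mul]
    have h1 : ∀ w : U, f (w * n * u * n) = μ ⟨n * n, h.nn⟩ * f 1 := by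
      intro w
      have h2 : (w : G) * n * u * n = w * (⟨n * n, h.nn⟩ : T) := by
        rw [hu, mul_one, mul_assoc]
      rw [h2, hf.2]
      have h3 := hf.1 1 w w.2
      rw [one_mul] at h3
      rw [h3]
    rw [Finset.sum_congr rfl fun w _ => h1 w, Finset.sum_const, Finset.card_univ,
      ← Nat.card_eq_fintype_card, nsmul_eq_mul, hcard, zero_mul]
  · rcases h.cell (n * u * n) with ⟨u', hu', t, ht, he⟩ | ⟨u₁, hu₁, t, ht, u₂, hu₂, he⟩
    · exfalso
      apply hu
      refine h.opp u u.2 u' hu' (t * (n * n)⁻¹) (T.mul_mem ht (T.inv_mem h.nn)) ?_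
      rw [← mul_assoc, ← he]
      group
    · refine ⟨μ ⟨t, ht⟩, fun f hf => ?_⟩
      unfold cnd
      rw [Finset.mul_sum, ← Equiv.sum_comp (Equiv.mulRight (⟨u₁, hu₁⟩ : U))
        (fun w : U => μ ⟨t, ht⟩ * f (1 * w * n))]
      refine Finset.sum_congr rfl fun w _ => ?_
      rw [Equiv.coe_mulRight, ← hf.2]
      have h1 : (w : G) * n * u * n = w * (n * u * n) := by group
      rw [h1, he, ← mul_assoc, hf.1 _ u₂ hu₂, Subgroup.coe_mul]
      congr 1
      group

/-- the elements of the induced module -/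
def fnl (U T : Subgroup G) [Fintype U] (n : G) (μ : T →* F) :
    (F × (U → F)) →ₗ[F] (G → F) where
  toFun p x := p.1 * muB U T μ x + ∑ w : U, p.2 w * muB U T μ (n⁻¹ * (w : G)⁻¹ * x)
  map_add' p q := by
    funext x
    simp only [Prod.fst_add, Prod.snd_add, Pi.add_apply, add_mul, Finset.sum_add_distrib]
    ring
  map_smul' c p := by
    funext x
    simp only [Prod.smul_fst, Prod.smul_snd, Pi.smul_apply, smul_eq_mul, RingHom.id_apply, mul_add,
      Finset.mul_sum, mul_assoc]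

theorem fnl_apply (μ : T →* F) (p : F × (U → F)) (x : G) :
    fnl U T n μ p x = p.1 * muB U T μ x + ∑ w : U, p.2 w * muB U T μ (n⁻¹ * (w : G)⁻¹ * x) := rfl

theorem fnl_ind (h : Rk1 ℓ U T n) (hℓ : ℓ.Prime) (μ : T →* F) (p : F × (U → F)) :
    Ind U T μ (fnl U T n μ p) := by
  constructor
  · intro x u hu
    rw [fnl_apply, fnl_apply, muB_mul_U h hℓ μ x hu]
    congr 1
    refine Finset.sum_congr rfl fun w _ => ?_
    rw [← mul_assoc, muB_mul_U h hℓ μ _ hu]
  · intro x t
    rw [fnl_apply, fnl_apply, muB_mul_T h hℓ μ x t, mul_add, Finset.mul_sum]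
    congr 1
    · ring
    · refine Finset.sum_congr rfl fun w _ => ?_
      rw [← mul_assoc, muB_mul_T h hℓ μ]
      ring

theorem fnl_one (h : Rk1 ℓ U T n) (hℓ : ℓ.Prime) (μ : T →* F) (p : F × (U → F)) :
    fnl U T n μ p 1 = p.1 := by
  rw [fnl_apply]
  have h1 : muB U T μ 1 = 1 := by
    have h2 := muB_mul h hℓ μ U.one_mem 1
    rw [Subgroup.coe_one, mul_one, map_one] at h2
    exact h2
  rw [h1, mul_one, Finset.sum_eq_zero, add_zero]
  intro w _
  rw [muB_off, mul_zero]
  rintro ⟨t, u, hu, he⟩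
  apply n_off h
  have h3 : n = (w : G)⁻¹ * (u * t)⁻¹ := by
    rw [← he]
    group
  have h4 := h.TU (t : G)⁻¹ (T.inv_mem t.2) u⁻¹ (U.inv_mem hu)
  rw [inv_inv] at h4
  refine ⟨t⁻¹, (w : G)⁻¹ * ((t : G)⁻¹ * u⁻¹ * t), U.mul_mem (U.inv_mem w.2) h4, ?_⟩
  rw [Subgroup.coe_inv]
  calc n = (w : G)⁻¹ * (u * t)⁻¹ := h3
    _ = _ := by group

theorem fnl_un (h : Rk1 ℓ U T n) (hℓ : ℓ.Prime) (μ : T →* F) (p : F × (U → F)) (v : U) :
    fnl U T n μ p (v * n) = p.2 v := by
  classical
  rw [fnl_apply, muB_off, mul_zero, zero_add, Finset.sum_eq_single v]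
  · have h1 : muB U T μ 1 = 1 := by
      have h2 := muB_mul h hℓ μ U.one_mem 1
      rw [Subgroup.coe_one, mul_one, map_one] at h2
      exact h2
    have h2 : n⁻¹ * (v : G)⁻¹ * (v * n) = 1 := by group
    rw [h2, h1, mul_one]
  · intro w _ hw
    rw [muB_off, mul_zero]
    intro hB
    apply hw
    have h1 : n⁻¹ * (w : G)⁻¹ * (v * n) = n⁻¹ * ((w : G)⁻¹ * v) * n := by group
    rw [h1] at hB
    have h2 := opp' h (U.mul_mem (U.inv_mem w.2) v.2) hB
    apply Subtype.ext
    exact (inv_mul_eq_one.1 h2)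
  · intro hv
    exact absurd (Finset.mem_univ v) hv
  · rintro ⟨t, u, hu, he⟩
    apply n_off h
    refine ⟨t, (v : G)⁻¹ * u, U.mul_mem (U.inv_mem v.2) hu, ?_⟩
    rw [mul_assoc, ← he, inv_mul_cancel_left]

/-- there is a nonzero function with all conditions -/
theorem exists_fn (h : Rk1 ℓ U T n) (hℓ : ℓ.Prime) (hcard : ((Nat.card U : ℕ) : F) = 0)
    (μ : T →* F) : ∃ f : G → F, f ≠ 0 ∧ Ind U T μ f ∧ ∀ x, cnd U n f x = 0 := by
  classical
  choose c hc using cnd_rel (F := F) h hcard μ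
  have hrel : ∀ f : G → F, Ind U T μ f →
      ∑ w : U, cnd U n f (w * n) = (∑ u : U, c u) * cnd U n f 1 := by
    intro f hf
    rw [Finset.sum_mul]
    unfold cnd
    rw [Finset.sum_comm]
    refine Finset.sum_congr rfl fun u _ => ?_
    exact hc u f hf
  let Λ : (F × (U → F)) →ₗ[F] (F × (U → F)) :=
    { toFun := fun p => (cnd U n (fnl U T n μ p) 1, fun w => cnd U n (fnl U T n μ p) (w * n))
      map_add' := by
        intro p q
        unfold cnd
        simp only [map_add, Pi.add_apply, Finset.sum_add_distrib]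
        rfl
      map_smul' := by
        intro a p
        unfold cnd
        simp only [map_smul, Pi.smul_apply, smul_eq_mul, ← Finset.mul_sum, RingHom.id_apply]
        rfl }
  have hns : ¬ Function.Surjective Λ := by
    intro hs
    obtain ⟨p, hp⟩ := hs (0, Pi.single 1 1)
    have h1 := hrel _ (fnl_ind (n := n) h hℓ μ p)
    have h2 : cnd U n (fnl U T n μ p) 1 = 0 := congrArg Prod.fst hp
    have h3 : ∀ w : U, cnd U n (fnl U T n μ p) (w * n) = (Pi.single 1 1 : U → F) w :=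
      fun w => congrFun (congrArg Prod.snd hp) w
    rw [h2, mul_zero, Finset.sum_congr rfl fun w _ => h3 w, Finset.sum_pi_single'] at h1
    simp at h1
  have hni : ¬ Function.Injective Λ := fun hi => hns (LinearMap.injective_iff_surjective.1 hi)
  have hker : ∃ p, p ≠ 0 ∧ Λ p = 0 := by
    by_contra hcon
    push Not at hcon
    apply hni
    rw [injective_iff_map_eq_zero]
    intro p hp
    by_contra hp0
    exact hcon p hp0 hp
  obtain ⟨p, hp0, hp⟩ := hker
  refine ⟨fnl U T n μ p, ?_, fnl_ind h hℓ μ p, ?_⟩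
  · intro h0
    apply hp0
    have h1 := fnl_one h hℓ μ p
    rw [h0] at h1
    have h2 : ∀ v, p.2 v = 0 := by
      intro v
      rw [← fnl_un h hℓ μ p v, h0]
      rfl
    exact Prod.ext h1.symm (funext h2)
  · exact cnd_all h (fnl_ind h hℓ μ p) (congrArg Prod.fst hp)
      (fun w => congrFun (congrArg Prod.snd hp) w)

/-- the space of all functions with the conditions -/
def EE (U T : Subgroup G) [Fintype U] (n : G) (μ : T →* F) : Submodule F (G → F) where
  carrier := {f | Ind U T μ f ∧ ∀ x, cnd U n f x = 0}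
  add_mem' := by
    rintro f g ⟨⟨a1, a2⟩, a3⟩ ⟨⟨b1, b2⟩, b3⟩
    refine ⟨⟨fun x u hu => ?_, fun x t => ?_⟩, fun x => ?_⟩
    · rw [Pi.add_apply, Pi.add_apply, a1 x u hu, b1 x u hu]
    · rw [Pi.add_apply, Pi.add_apply, a2, b2, mul_add]
    · have h1 : cnd U n (f + g) x = cnd U n f x + cnd U n g x := by
        unfold cnd
        simp only [Pi.add_apply, Finset.sum_add_distrib]
      rw [h1, a3, b3, add_zero]
  zero_mem' := by
    refine ⟨⟨fun x u hu => rfl, fun x t => ?_⟩, fun x => ?_⟩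
    · rw [Pi.zero_apply, Pi.zero_apply, mul_zero]
    · unfold cnd
      simp only [Pi.zero_apply, Finset.sum_const_zero]
  smul_mem' := by
    rintro c f ⟨⟨a1, a2⟩, a3⟩
    refine ⟨⟨fun x u hu => ?_, fun x t => ?_⟩, fun x => ?_⟩
    · rw [Pi.smul_apply, Pi.smul_apply, a1 x u hu]
    · rw [Pi.smul_apply, Pi.smul_apply, a2, smul_eq_mul, smul_eq_mul]
      ring
    · have h1 : cnd U n (c • f) x = c * cnd U n f x := by
        unfold cnd
        simp only [Pi.smul_apply, smul_eq_mul, Finset.mul_sum]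
      rw [h1, a3, mul_zero]

/-- the left translations -/
def repE (U T : Subgroup G) [Fintype U] (n : G) (μ : T →* F) :
    Representation F G (EE U T n μ) where
  toFun g :=
    { toFun := fun f => ⟨fun x => (f : G → F) (g⁻¹ * x), by
        obtain ⟨⟨a1, a2⟩, a3⟩ := f.2
        refine ⟨⟨fun x u hu => ?_, fun x t => ?_⟩, fun x => ?_⟩
        · show (f : G → F) (g⁻¹ * (x * u)) = (f : G → F) (g⁻¹ * x)
          rw [← mul_assoc, a1 _ u hu]
        · show (f : G → F) (g⁻¹ * (x * t)) = μ t * (f : G → F) (g⁻¹ * x)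
          rw [← mul_assoc, a2]
        · have h1 := a3 (g⁻¹ * x)
          unfold cnd at h1 ⊢
          rw [← h1]
          refine Finset.sum_congr rfl fun u _ => ?_
          show (f : G → F) (g⁻¹ * (x * u * n)) = _
          simp only [mul_assoc]⟩
      map_add' := fun f f' => rfl
      map_smul' := fun c f => rfl }
  map_one' := by
    apply LinearMap.ext
    intro f
    apply Subtype.ext
    funext x
    show (f : G → F) ((1 : G)⁻¹ * x) = (f : G → F) x
    rw [inv_one, one_mul]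
  map_mul' g g' := by
    apply LinearMap.ext
    intro f
    apply Subtype.ext
    funext x
    show (f : G → F) ((g * g')⁻¹ * x) = (f : G → F) (g'⁻¹ * (g⁻¹ * x))
    rw [mul_inv_rev, mul_assoc]

theorem repE_apply (μ : T →* F) (g : G) (f : EE U T n μ) (x : G) :
    ((repE U T n μ g f : EE U T n μ) : G → F) x = (f : G → F) (g⁻¹ * x) := rfl

end fn

/-- BEX. -/
theorem exi (hehw : EhwStmt) : ExiStmt := by
  intro ℓ _ F _ hF G _ _ U T n h μ
  classical
  have := Fintype.ofFinite U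
  have hcl := hF.closed
  have hch := hF.char
  have hcard : ((Nat.card U : ℕ) : F) = 0 := by
    rw [CharP.cast_eq_zero_iff F ℓ]
    obtain ⟨k, hk⟩ := (IsPGroup.iff_card).1 h.pU
    rw [hk]
    rcases Nat.eq_zero_or_pos k with h0 | h0
    · exfalso
      apply h.ne
      rw [h0, pow_zero] at hk
      exact (Subgroup.card_eq_one).1 hk
    · exact dvd_pow_self ℓ h0.ne'
  obtain ⟨f₀, hf0, hf1, hf2⟩ := exists_fn h hF.prime hcard μ
  have hnt : Nontrivial (EE U T n μ) :=
    ⟨⟨⟨f₀, hf1, hf2⟩, 0, fun h0 => hf0 (congrArg Subtype.val h0)⟩⟩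
  obtain ⟨m, κ, ι, hκ, hint, hinj⟩ := sub_irr (repE U T n μ)
  have hρ := H65.dual_irr hκ
  set ρ := H65.dual κ with hρdef
  let v : Fin m → F := fun i => (ι (Pi.single i 1) : G → F) 1
  -- the pairing
  have hv : ∀ w : Fin m → F, v ⬝ᵥ w = (ι w : G → F) 1 := by
    intro w
    have h1 : w = ∑ i, w i • (Pi.single i 1 : Fin m → F) := by
      rw [← pi_eq_sum_univ' w]
    have h2 : (ι w : G → F) 1 = ∑ i, w i * (ι (Pi.single i 1) : G → F) 1 := by
      conv_lhs => rw [h1]
      rw [map_sum, Submodule.coe_sum, Finset.sum_apply]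
      refine Finset.sum_congr rfl fun i _ => ?_
      rw [map_smul]
      rfl
    rw [h2]
    show ∑ i, v i * w i = _
    exact Finset.sum_congr rfl fun i _ => mul_comm _ _
  have hpair : ∀ (g : G) (w : Fin m → F), (ρ g).mulVec v ⬝ᵥ w = (ι w : G → F) g := by
    intro g w
    rw [hρdef, H65.dual_apply, Matrix.mulVec_transpose, ← Matrix.dotProduct_mulVec, hv, hint,
      repE_apply, inv_inv, mul_one]
  have hext : ∀ a b : Fin m → F, (∀ w, a ⬝ᵥ w = b ⬝ᵥ w) → a = b := by
    intro a b hab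
    exact dotProduct_eq a b hab
  have hvU : ∀ u ∈ U, (ρ u).mulVec v = v := by
    intro u hu
    apply hext
    intro w
    rw [hpair, hv]
    have h1 := (ι w).2.1.1 1 u hu
    rw [one_mul] at h1
    exact h1
  have hvT : ∀ t : T, (ρ t).mulVec v = μ t • v := by
    intro t
    apply hext
    intro w
    rw [hpair, smul_dotProduct, hv, smul_eq_mul]
    have h1 := (ι w).2.1.2 1 t
    rw [one_mul] at h1
    exact h1
  have hv0 : v ≠ 0 := by
    intro h0
    have h1 : ∀ w, ι w = 0 := by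
      intro w
      apply Subtype.ext
      funext g
      rw [← hpair g w, h0, Matrix.mulVec_zero, zero_dotProduct]
      rfl
    have h2 : (Pi.single ⟨0, hκ.1⟩ 1 : Fin m → F) = 0 := hinj (by rw [h1, map_zero])
    have h3 := congrFun h2 ⟨0, hκ.1⟩
    rw [Pi.single_eq_same] at h3
    exact one_ne_zero h3
  have hsum : ∑ u : U, (ρ ((u : G) * n)).mulVec v = 0 := by
    apply hext
    intro w
    rw [sum_dotProduct, zero_dotProduct, Finset.sum_congr rfl fun u _ => hpair _ w]
    have h1 := (ι w).2.2 1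
    unfold cnd at h1
    simpa only [one_mul] using h1
  refine ⟨m, ρ, v, hρ, ?_, hv0, hvU, hvT, ?_⟩
  · -- the sum of the elements of `U` acts as zero
    unfold SZ
    rw [finsum_eq_sum_of_fintype]
    have h1 : ∀ w : Fin m → F, (∑ u : U, ρ u).mulVec w = 0 := by
      intro w
      obtain ⟨a, ha⟩ := H75.cyc_of hF h h.ne hρ hv0 hvU hvT w
      rw [finsum_eq_sum_of_fintype] at ha
      rw [ha, Matrix.mulVec_sum]
      refine Finset.sum_eq_zero fun u _ => ?_
      rw [Matrix.mulVec_smul, Matrix.sum_mulVec]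
      have h2 : ∑ i : U, (ρ i).mulVec ((ρ ((u : G) * n)).mulVec v) = 0 := by
        rw [← hsum, ← Equiv.sum_comp (Equiv.mulRight u)
          (fun w : U => (ρ ((w : G) * n)).mulVec v)]
        refine Finset.sum_congr rfl fun i _ => ?_
        rw [Matrix.mulVec_mulVec, ← map_mul, Equiv.coe_mulRight, Subgroup.coe_mul, mul_assoc]
      rw [h2, smul_zero]
    ext i j
    have h2 := congrFun (h1 (Pi.single j 1)) i
    rw [Matrix.mulVec_single_one] at h2
    exact h2
  · intro w hw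
    obtain ⟨v', μ', hv', -, -, hun⟩ := hehw ℓ F hF G U T n h m ρ hρ
    obtain ⟨c, hc⟩ := hun v hvU
    obtain ⟨d, hd⟩ := hun w hw
    have hc0 : c ≠ 0 := by
      rintro rfl
      rw [zero_smul] at hc
      exact hv0 hc
    refine ⟨d * c⁻¹, ?_⟩
    rw [hc, smul_smul, mul_assoc, inv_mul_cancel₀ hc0, mul_one, hd]

end Pool.Agent.PP.BN.H96
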