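import Pool.Agent.Helper66_BN.Stmts
import Pool.Agent.Helper58_CL.Fin
import Pool.Agent.Helper20_PP.Ibr

/-!
# Squad PP, part BN, module BCS: the sums of the counting lemma depend only on the cosets
-/

open scoped BigOperators

set_option linter.unusedSectionVars false

noncomputable section

namespace Pool.Agent.PP.BN.H96

open Pool.Agent.PP

variable {F H : Type} [Field F] [Group H] {L : Subgroup H} [L.Normal]

/-- a trace is invariant under inner automorphisms -/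
theorem tr_inn {K : Type} [Group K] {φ : K → F} (hφ : φ ∈ IBr F K) (l g : K) :
    φ (l * g * l⁻¹) = φ g := by
  obtain ⟨n, ρ, _, rfl⟩ := hφ
  unfold tr
  rw [map_mul, map_mul, Matrix.trace_mul_comm, ← mul_assoc, ← map_mul, inv_mul_cancel, map_one,
    one_mul]

/-- the stabiliser of a character contains `L` -/
theorem stab_mul {φ : L → F} (hφ : φ ∈ IBr F L) (x : H) {l : H} (hl : l ∈ L) :
    (∀ g, φ (MulAut.conjNormal (x * l) g) = φ g) ↔ ∀ g, φ (MulAut.conjNormal x g) = φ g := by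
  have key : ∀ g : L, MulAut.conjNormal (x * l) g =
      MulAut.conjNormal x (⟨l, hl⟩ * g * ⟨l, hl⟩⁻¹) := by
    intro g
    apply Subtype.ext
    simp only [MulAut.conjNormal_apply, Subgroup.coe_mul, Subgroup.coe_inv]
    group
  constructor
  · intro h g
    have h1 := h (⟨l, hl⟩⁻¹ * g * ⟨l, hl⟩)
    rw [key] at h1
    have e : (⟨l, hl⟩ : L) * (⟨l, hl⟩⁻¹ * g * ⟨l, hl⟩) * ⟨l, hl⟩⁻¹ = g := by group
    rw [e] at h1
    rw [h1]
    have h2 := tr_inn hφ (⟨l, hl⟩⁻¹ : L) g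
    rw [inv_inv] at h2
    exact h2
  · intro h g
    rw [key, h, tr_inn hφ]

theorem phiSet_mul (a : H → F) (x y : H) {l m : H} (hl : l ∈ L) (hm : m ∈ L) :
    phiSet L a (x * l) (y * m) = phiSet L a x y := by
  ext φ
  unfold phiSet
  constructor
  · rintro ⟨h1, h2, h3, h4⟩
    exact ⟨h1, h2, (stab_mul h1 x hl).1 h3, (stab_mul h1 y hm).1 h4⟩
  · rintro ⟨h1, h2, h3, h4⟩
    exact ⟨h1, h2, (stab_mul h1 x hl).2 h3, (stab_mul h1 y hm).2 h4⟩

theorem isTC_mul {φ : L → F} {x y : H} {c : F} (h : IsTC L φ x y c) {l m : H} (hl : l ∈ L)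
    (hm : m ∈ L) : IsTC L φ (x * l) (y * m) c := by
  obtain ⟨n, ρ, X, Y, hk, hρ, htr, hX, hY, iX, iY, he⟩ := h
  have hk' : x * l * (y * m) * (x * l)⁻¹ * (y * m)⁻¹ ∈ L := by
    rw [← QuotientGroup.eq_one_iff] at hk hl hm ⊢
    simp only [QuotientGroup.mk_mul, QuotientGroup.mk_inv, hl, hm, mul_one] at hk ⊢
    exact hk
  have jX := (⟨hX, iX⟩ : Helper58_CL.Imp ρ x X).mul (Helper58_CL.Imp.coe (ρ := ρ) (⟨l, hl⟩ : L))
  have jY := (⟨hY, iY⟩ : Helper58_CL.Imp ρ y Y).mul (Helper58_CL.Imp.coe (ρ := ρ) (⟨m, hm⟩ : L))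
  refine ⟨n, ρ, X * ρ ⟨l, hl⟩, Y * ρ ⟨m, hm⟩, hk', hρ, htr, jX.unit, jY.unit, jX.eq, jY.eq, ?_⟩
  rw [iX, iY]
  have e1 : ρ (MulAut.conjNormal x ⟨l, hl⟩) * X * (ρ (MulAut.conjNormal y ⟨m, hm⟩) * Y) =
      c • (ρ (MulAut.conjNormal x ⟨l, hl⟩ * MulAut.conjNormal x (MulAut.conjNormal y ⟨m, hm⟩) *
        ⟨x * y * x⁻¹ * y⁻¹, hk⟩) * Y * X) := by
    rw [map_mul, map_mul]
    calc ρ (MulAut.conjNormal x ⟨l, hl⟩) * X * (ρ (MulAut.conjNormal y ⟨m, hm⟩) * Y)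
        = ρ (MulAut.conjNormal x ⟨l, hl⟩) * (X * ρ (MulAut.conjNormal y ⟨m, hm⟩)) * Y := by
          simp only [mul_assoc]
      _ = ρ (MulAut.conjNormal x ⟨l, hl⟩) *
          ρ (MulAut.conjNormal x (MulAut.conjNormal y ⟨m, hm⟩)) * (X * Y) := by
          rw [iX]
          simp only [mul_assoc]
      _ = _ := by
          rw [he, mul_smul_comm]
          simp only [mul_assoc]
  have e2 : ρ (MulAut.conjNormal y ⟨m, hm⟩) * Y * (ρ (MulAut.conjNormal x ⟨l, hl⟩) * X) =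
      ρ (MulAut.conjNormal y ⟨m, hm⟩ * MulAut.conjNormal y (MulAut.conjNormal x ⟨l, hl⟩)) *
        Y * X := by
    rw [map_mul]
    calc ρ (MulAut.conjNormal y ⟨m, hm⟩) * Y * (ρ (MulAut.conjNormal x ⟨l, hl⟩) * X)
        = ρ (MulAut.conjNormal y ⟨m, hm⟩) * (Y * ρ (MulAut.conjNormal x ⟨l, hl⟩)) * X := by
          simp only [mul_assoc]
      _ = _ := by
          rw [iY]
          simp only [mul_assoc]
  have e3 : MulAut.conjNormal x ⟨l, hl⟩ * MulAut.conjNormal x (MulAut.conjNormal y ⟨m, hm⟩) *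
      ⟨x * y * x⁻¹ * y⁻¹, hk⟩ = (⟨x * l * (y * m) * (x * l)⁻¹ * (y * m)⁻¹, hk'⟩ : L) *
      (MulAut.conjNormal y ⟨m, hm⟩ * MulAut.conjNormal y (MulAut.conjNormal x ⟨l, hl⟩)) := by
    apply Subtype.ext
    simp only [Subgroup.coe_mul, MulAut.conjNormal_apply]
    group
  rw [e1, e3, map_mul, mul_assoc (ρ ⟨x * l * (y * m) * (x * l)⁻¹ * (y * m)⁻¹, hk'⟩)
    (ρ (MulAut.conjNormal y ⟨m, hm⟩) * Y), e2]
  simp only [mul_assoc]

/-- BCS. -/
theorem cos : CosStmt := by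
  intro ℓ F _ hF τ H _ _ L _ a x y hk l hl m hm
  unfold csum
  rw [phiSet_mul a x y hl hm]
  refine finsum_mem_congr rfl fun φ hφ => ?_
  obtain ⟨h1, h2, h3, h4⟩ := hφ
  have hclu := Helper58_CL.clu H20.ibc ℓ F hF H L φ h1
  obtain ⟨-, t1, -⟩ := hclu x y hk h3 h4
  have t2 := isTC_mul t1 hl hm
  have hk' : x * l * (y * m) * (x * l)⁻¹ * (y * m)⁻¹ ∈ L := by
    obtain ⟨n, ρ, X, Y, hk', -⟩ := t2
    exact hk'
  obtain ⟨-, -, t3⟩ := hclu (x * l) (y * m) hk' ((stab_mul h1 x hl).2 h3) ((stab_mul h1 y hm).2 h4)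
  rw [← t3 _ t2]

end Pool.Agent.PP.BN.H96
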